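import Pool.Agent.Helper94.YF.St

/-! # Project YF, module EV: sums over units and nonunits modulo a power of two -/

set_option autoImplicit false

namespace Pool.Agent.Helper51.YF

open Pool.Agent.Helper94.YF Finset

private lemma isU {a : ℕ} (ha : 1 ≤ a) (n : ℕ) : IsUnit ((n : ℕ) : ZMod (2 ^ a)) ↔ Odd n := by
  rw [ZMod.isUnit_iff_coprime, Nat.coprime_pow_right_iff (by omega), Nat.coprime_two_right]

private lemma isV {a : ℕ} (ha : 1 ≤ a) (x : ZMod (2 ^ a)) : IsUnit x ↔ Odd x.val := by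
  conv_lhs => rw [← ZMod.natCast_zmod_val x]
  exact isU ha _

private lemma one_add {a : ℕ} (ha : 1 ≤ a) (x : ZMod (2 ^ a)) : IsUnit (1 + x) ↔ ¬ IsUnit x := by
  have h : (1 + x : ZMod (2 ^ a)) = ((1 + x.val : ℕ) : ZMod (2 ^ a)) := by
    push_cast
    rw [ZMod.natCast_zmod_val]
  rw [h, isU ha, isV ha, Nat.odd_add, Nat.not_odd_iff_even]
  exact ⟨fun h => h.1 odd_one, fun h => ⟨fun _ => h, fun _ => odd_one⟩⟩

private lemma one_sub {a : ℕ} (ha : 1 ≤ a) (x : ZMod (2 ^ a)) : IsUnit (1 - x) ↔ ¬ IsUnit x := by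
  rw [sub_eq_add_neg, one_add ha, IsUnit.neg_iff]

private lemma sum_two (G : ℕ → ℂ) (h : ℕ) :
    ∑ i ∈ range (2 * h), G i = ∑ k ∈ range h, (G (2 * k) + G (2 * k + 1)) := by
  induction h with
  | zero => simp
  | succ h ih => rw [show 2 * (h + 1) = 2 * h + 1 + 1 by ring, sum_range_succ, sum_range_succ, ih,
      sum_range_succ, add_assoc]

private lemma geo (θ : ℂ) (h : ℕ) (hθ : θ ^ (2 * h) = 1) :
    ∑ k ∈ range h, θ ^ (2 * k) = if θ ^ 2 = 1 then (h : ℂ) else 0 := by
  simp only [pow_mul] at hθ ⊢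
  split_ifs with h1
  · simp [h1]
  · have h2 := geom_sum_mul (θ ^ 2) h
    rw [hθ, sub_self] at h2
    exact (mul_eq_zero.1 h2).resolve_right (sub_ne_zero.2 h1)

theorem hEV : StEV := by
  classical
  intro a ha
  have key : ∀ G : ℕ → ℂ, ∑ x : ZMod (2 ^ a), G x.val = ∑ i ∈ range (2 ^ a), G i := by
    intro G
    refine Finset.sum_nbij' (fun x => x.val) (fun i => ((i : ℕ) : ZMod (2 ^ a))) ?_ ?_ ?_ ?_ ?_
    · intro x _
      exact mem_range.2 (ZMod.val_lt x)
    · intro i _
      exact mem_univ _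
    · intro x _
      exact ZMod.natCast_zmod_val x
    · intro i hi
      exact ZMod.val_cast_of_lt (mem_range.1 hi)
    · intro x _
      rfl
  have hpow : 2 ^ a = 2 * 2 ^ (a - 1) := by
    rw [← pow_succ', Nat.sub_add_cancel ha]
  refine ⟨one_add ha, fun f => ?_, fun f => ?_, fun θ hθ => ⟨?_, ?_⟩⟩
  · have e : ∀ g : ZMod (2 ^ a) → ℂ, (∑ x, if IsUnit x then 0 else g x) =
        ∑ x ∈ univ.filter (fun x => ¬ IsUnit x), g x := by
      intro g
      rw [Finset.sum_filter]
      exact Finset.sum_congr rfl fun x _ => by split_ifs <;> simp_all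
    rw [e, e]
    refine Finset.sum_nbij' (fun x => x * Ring.inverse (1 + x)) (fun y => y * Ring.inverse (1 - y))
      ?_ ?_ ?_ ?_ ?_
    · intro x hx
      obtain ⟨w, hw⟩ := (one_add ha x).2 (mem_filter.1 hx).2
      refine mem_filter.2 ⟨mem_univ _, ?_⟩
      simp only [← hw, Ring.inverse_unit, Units.isUnit_mul_units]
      exact (mem_filter.1 hx).2
    · intro x hx
      obtain ⟨w, hw⟩ := (one_sub ha x).2 (mem_filter.1 hx).2
      refine mem_filter.2 ⟨mem_univ _, ?_⟩
      simp only [← hw, Ring.inverse_unit, Units.isUnit_mul_units]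
      exact (mem_filter.1 hx).2
    · intro x hx
      obtain ⟨w, hw⟩ := (one_add ha x).2 (mem_filter.1 hx).2
      have h1 : 1 - x * ((w⁻¹ : (ZMod (2 ^ a))ˣ) : ZMod (2 ^ a)) = ((w⁻¹ : (ZMod (2 ^ a))ˣ) : ZMod (2 ^ a)) := by
        have : x = (w : ZMod (2 ^ a)) - 1 := by rw [hw]; ring
        rw [this, sub_mul, Units.mul_inv]
        ring
      simp only [← hw, Ring.inverse_unit, h1]
      rw [inv_inv, mul_assoc, Units.inv_mul, mul_one]
    · intro x hx
      obtain ⟨w, hw⟩ := (one_sub ha x).2 (mem_filter.1 hx).2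
      have h1 : 1 + x * ((w⁻¹ : (ZMod (2 ^ a))ˣ) : ZMod (2 ^ a)) = ((w⁻¹ : (ZMod (2 ^ a))ˣ) : ZMod (2 ^ a)) := by
        have : x = 1 - (w : ZMod (2 ^ a)) := by rw [hw]; ring
        rw [this, sub_mul, Units.mul_inv]
        ring
      simp only [← hw, Ring.inverse_unit, h1]
      rw [inv_inv, mul_assoc, Units.inv_mul, mul_one]
    · intro x _
      rfl
  · have e : (∑ x, if IsUnit x then f (1 + Ring.inverse x) else 0) =
        ∑ x ∈ univ.filter (fun x => IsUnit x), f (1 + Ring.inverse x) := by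
      rw [Finset.sum_filter]
    have e' : (∑ x, if IsUnit x then 0 else f x) =
        ∑ x ∈ univ.filter (fun x => ¬ IsUnit x), f x := by
      rw [Finset.sum_filter]
      exact Finset.sum_congr rfl fun x _ => by split_ifs <;> simp_all
    rw [e, e']
    refine Finset.sum_nbij' (fun x => 1 + Ring.inverse x) (fun y => Ring.inverse (y - 1))
      ?_ ?_ ?_ ?_ ?_
    · intro x hx
      obtain ⟨w, rfl⟩ := (mem_filter.1 hx).2
      refine mem_filter.2 ⟨mem_univ _, ?_⟩
      rw [one_add ha, Ring.inverse_unit, not_not]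
      exact w⁻¹.isUnit
    · intro x hx
      have h1 : IsUnit (x - 1) := by
        rw [← neg_sub, IsUnit.neg_iff]
        exact (one_sub ha x).2 (mem_filter.1 hx).2
      obtain ⟨w, hw⟩ := h1
      refine mem_filter.2 ⟨mem_univ _, ?_⟩
      rw [← hw, Ring.inverse_unit]
      exact w⁻¹.isUnit
    · intro x hx
      obtain ⟨w, rfl⟩ := (mem_filter.1 hx).2
      simp only [Ring.inverse_unit, add_sub_cancel_left, inv_inv]
    · intro x hx
      have h1 : IsUnit (x - 1) := by
        rw [← neg_sub, IsUnit.neg_iff]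
        exact (one_sub ha x).2 (mem_filter.1 hx).2
      obtain ⟨w, hw⟩ := h1
      simp only [← hw, Ring.inverse_unit, inv_inv]
      rw [hw]
      ring
    · intro x _
      rfl
  · have e : (∑ x : ZMod (2 ^ a), if IsUnit x then 0 else θ ^ x.val) =
        ∑ x : ZMod (2 ^ a), (fun i : ℕ => if Odd i then (0 : ℂ) else θ ^ i) x.val := by
      refine Finset.sum_congr rfl fun x _ => ?_
      exact if_congr (isV ha x) rfl rfl
    refine e.trans ((key (fun i : ℕ => if Odd i then (0 : ℂ) else θ ^ i)).trans ?_)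
    rw [hpow, sum_two]
    rw [hpow] at hθ
    have h1 : ∀ k ∈ range (2 ^ (a - 1)), ((fun i : ℕ => if Odd i then (0 : ℂ) else θ ^ i) (2 * k) +
        (fun i : ℕ => if Odd i then (0 : ℂ) else θ ^ i) (2 * k + 1)) = θ ^ (2 * k) := by
      intro k _
      have h2 : ¬ Odd (2 * k) := by
        rw [Nat.not_odd_iff_even]
        exact even_two_mul k
      simp only [h2, odd_two_mul_add_one, if_true, if_false, add_zero]
    rw [Finset.sum_congr rfl h1, geo θ _ hθ]
    push_cast
    rfl
  · have e : (∑ x : ZMod (2 ^ a), if IsUnit x then θ ^ x.val else 0) =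
        ∑ x : ZMod (2 ^ a), (fun i : ℕ => if Odd i then θ ^ i else (0 : ℂ)) x.val := by
      refine Finset.sum_congr rfl fun x _ => ?_
      exact if_congr (isV ha x) rfl rfl
    refine e.trans ((key (fun i : ℕ => if Odd i then θ ^ i else (0 : ℂ))).trans ?_)
    rw [hpow, sum_two]
    rw [hpow] at hθ
    have h1 : ∀ k ∈ range (2 ^ (a - 1)), ((fun i : ℕ => if Odd i then θ ^ i else (0 : ℂ)) (2 * k) +
        (fun i : ℕ => if Odd i then θ ^ i else (0 : ℂ)) (2 * k + 1)) = θ * θ ^ (2 * k) := by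
      intro k _
      have h2 : ¬ Odd (2 * k) := by
        rw [Nat.not_odd_iff_even]
        exact even_two_mul k
      simp only [h2, odd_two_mul_add_one, if_true, if_false, zero_add]
      rw [pow_succ']
    rw [Finset.sum_congr rfl h1, ← Finset.mul_sum, geo θ _ hθ, mul_ite, mul_zero]
    push_cast
    rfl

end Pool.Agent.Helper51.YF
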